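import Pool.Agent.Run7.h188.FW.Stm

/-! Piece RK of the interface `Pool/Agent/Run7/h188/FW/Stm.lean` (helper188): the rank of the
rigidity matrix of the distance graph. -/

set_option autoImplicit false

namespace Pool.Agent.Run7.h956.FW

open Finset Pool.Agent.Run7.h188.FW Pool.Agent.H283R2.DR Pool.Agent.H789R5

theorem li_real (hS : S_STR) (q d n : ℕ) (e : ℕ → ℕ) (w : ℕ → ℕ → ℝ) (he : Exps d e)
    (hq : q.Prime) (h2 : 2 < q) (heq : e (d + 1) < q)
    (hn : n + d * (d + 1) / 2 = ∑ k ∈ range (d + 2), e k)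
    (hw : ∀ k j, n ≤ j + e (k + 1) → w k j = 0)
    (hst : ∀ j < n, ∀ i, 1 ≤ i → i ≤ d → ∑ k ∈ range (d + 1),
      (w k j * (nod ℝ q i ^ j - nod ℝ q i ^ (j + e (k + 1))) +
        (if e (k + 1) ≤ j then w k (j - e (k + 1)) *
          (nod ℝ q i ^ j - nod ℝ q i ^ (j - e (k + 1))) else 0)) = 0) :
    ∀ k ≤ d, ∀ j, w k j = 0 := by
  intro k hk j
  rw [← Module.forall_dual_apply_eq_zero_iff ℚ]
  intro f
  have hnod : ∀ i, nod ℝ q i = ((nod ℚ q i : ℚ) : ℝ) := by intro i; simp [nod]
  refine hS q d n e (fun k j => f (w k j)) he hq h2 heq hn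
    (fun k j h => by rw [hw k j h, map_zero]) ?_ k hk j
  intro j hj i h1 hi
  have h := congrArg f (hst j hj i h1 hi)
  rw [map_sum, map_zero] at h
  refine Eq.trans (Finset.sum_congr rfl fun k _ => ?_) h
  have hf : ∀ (a : ℝ) (c : ℚ), f (a * (c : ℝ)) = f a * c := by
    intro a c
    rw [mul_comm, ← Rat.smul_def, map_smul, smul_eq_mul, mul_comm]
  have h3 : ∀ a b : ℕ, nod ℝ q i ^ a - nod ℝ q i ^ b =
      (((nod ℚ q i) ^ a - (nod ℚ q i) ^ b : ℚ) : ℝ) := by
    intro a b
    rw [hnod]
    push_cast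
    rfl
  rw [map_add, h3, hf]
  congr 1
  split_ifs
  · rw [h3, hf]
  · rw [map_zero]

theorem sum_aux (m n e j : ℕ) (hm : n ≤ m + e) (he : 0 < e)
    (hj : j < n) (w : ℕ → ℝ)
    (hw : ∀ j, n ≤ j + e → w j = 0) (ν : ℝ) :
    ∑ j' ∈ range m, w j' * (if j = j' then ν ^ j' - ν ^ (j' + e) else
      if j = j' + e then ν ^ (j' + e) - ν ^ j' else 0) =
    w j * (ν ^ j - ν ^ (j + e)) + (if e ≤ j then w (j - e) * (ν ^ j - ν ^ (j - e)) else 0) := by
  have h1 : ∀ j' ∈ range m, w j' * (if j = j' then ν ^ j' - ν ^ (j' + e) else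
      if j = j' + e then ν ^ (j' + e) - ν ^ j' else 0) =
      (if j = j' then w j * (ν ^ j - ν ^ (j + e)) else 0) +
      (if j = j' + e then w (j - e) * (ν ^ j - ν ^ (j - e)) else 0) := by
    intro j' _
    by_cases h : j = j'
    · subst h
      have h' : ¬ j = j + e := by omega
      rw [if_pos rfl, if_pos rfl, if_neg h', add_zero]
    · by_cases h' : j = j' + e
      · subst h'
        simp only [h, if_false, if_true, Nat.add_sub_cancel, zero_add]
      · simp [h, h']
  rw [Finset.sum_congr rfl h1, Finset.sum_add_distrib, Finset.sum_ite_eq]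
  congr 1
  · split_ifs with h
    · rfl
    · rw [hw j (by rw [mem_range] at h; omega), zero_mul]
  · split_ifs with h
    · have h2 : ∀ j' ∈ range m, (if j = j' + e then w (j - e) * (ν ^ j - ν ^ (j - e)) else 0) =
          (if j - e = j' then w (j - e) * (ν ^ j - ν ^ (j - e)) else 0) := by
        intro j' _
        have : (j = j' + e) ↔ (j - e = j') := by omega
        simp only [this]
      rw [Finset.sum_congr rfl h2, Finset.sum_ite_eq, if_pos]
      rw [mem_range]
      omega
    · refine Finset.sum_eq_zero fun j' _ => ?_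
      rw [if_neg]
      omega

theorem t_RK (hS : S_STR) : S_RK := by
  intro d n e he hdn hn
  obtain ⟨q, hq1, hq⟩ := Nat.exists_infinite_primes (e (d + 1) + 3)
  have hlow : ∀ k, k ≤ e k := fun k => he.mono.le_apply
  have hen : e (d + 1) ≤ n := by
    have h1 : ∑ k ∈ range (d + 1), k ≤ ∑ k ∈ range (d + 1), e k :=
      Finset.sum_le_sum fun k _ => hlow k
    rw [Finset.sum_range_id, Nat.add_sub_cancel, mul_comm] at h1
    rw [Finset.sum_range_succ] at hn
    omega
  have hek : ∀ k, k < d + 1 → e (k + 1) ≤ n := fun k hk =>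
    le_trans (he.mono.monotone (by omega)) hen
  have hpos : ∀ k, 0 < e (k + 1) := fun k => lt_of_lt_of_le (Nat.succ_pos k) (hlow (k + 1))
  let p : Fin n → Fin d → ℝ := fun j i => nod ℝ q ((i : ℕ) + 1) ^ (j : ℕ)
  obtain ⟨p0, hp0⟩ := exists_mg (Fin n) d
  rw [genRigid_iff hp0 (by rwa [Fintype.card_fin])]
  refine (hp0.min _ p).trans ?_
  have h1 := rank_add_mo (dG n d e) p
  rw [Fintype.card_fin] at h1
  have h3 : ∑ k : Fin (d + 1), (n - e ((k : ℕ) + 1)) + d * (d + 1) / 2 = d * n := by
    have e1 : ∑ k : Fin (d + 1), (n - e ((k : ℕ) + 1)) + ∑ k ∈ range (d + 1), e (k + 1) =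
        (d + 1) * n := by
      rw [Finset.sum_range, ← Finset.sum_add_distrib]
      rw [Finset.sum_congr rfl (fun (k : Fin (d + 1)) _ => Nat.sub_add_cancel (hek k k.2))]
      simp
    rw [Finset.sum_range_succ', he.e0, add_zero] at hn
    rw [← hn] at e1
    have e2 : (d + 1) * n = d * n + n := by ring
    omega
  have h2 : ∑ k : Fin (d + 1), (n - e ((k : ℕ) + 1)) ≤ (rigidityMatrix (dG n d e) p).rank := by
    let r : (Σ k : Fin (d + 1), Fin (n - e ((k : ℕ) + 1))) → (Fin n × Fin d → ℝ) := fun x =>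
      row p ⟨x.2, by have := x.2.2; omega⟩ ⟨(x.2 : ℕ) + e ((x.1 : ℕ) + 1), by have := x.2.2; omega⟩
    have hli : LinearIndependent ℝ r := by
      rw [Fintype.linearIndependent_iff]
      intro g hg
      let w : ℕ → ℕ → ℝ := fun k j => if h : k < d + 1 then
        (if h' : j < n - e (k + 1) then g ⟨⟨k, h⟩, ⟨j, h'⟩⟩ else 0) else 0
      have hw : ∀ k j, n ≤ j + e (k + 1) → w k j = 0 := by
        intro k j h
        simp only [w]
        split_ifs with h1 h2
        · omega
        · rfl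
        · rfl
      have hwg : ∀ (k : Fin (d + 1)) (j : Fin (n - e ((k : ℕ) + 1))), w k j = g ⟨k, j⟩ := by
        intro k j
        simp only [w, k.2, j.2, dif_pos]
      have key := li_real hS q d n e w he hq (by omega) (by omega) hn hw ?_
      · rintro ⟨k, j⟩
        rw [← hwg k j]
        exact key k (by have := k.2; omega) j
      · intro j hj i hi1 hi2
        have h5 := congrFun hg (⟨j, hj⟩, ⟨i - 1, by omega⟩)
        rw [Finset.sum_apply, Fintype.sum_sigma, Pi.zero_apply] at h5
        rw [Finset.sum_range]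
        refine Eq.trans (Finset.sum_congr rfl fun k _ => ?_) h5
        have hk := k.2
        rw [← sum_aux (n - e ((k : ℕ) + 1)) n (e ((k : ℕ) + 1)) j (by have := hek k hk; omega)
          (hpos k) hj (w k) (hw k) (nod ℝ q i), Finset.sum_range]
        refine Finset.sum_congr rfl fun j' _ => ?_
        rw [hwg, Pi.smul_apply, smul_eq_mul]
        congr 1
        have hi' : i - 1 + 1 = i := by omega
        simp only [r, Pool.Agent.H789R5.row, p, Fin.mk.injEq, hi']
    have hspan : Submodule.span ℝ (Set.range r) ≤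
        Submodule.span ℝ (Set.range (rigidityMatrix (dG n d e) p).row) := by
      refine Submodule.span_mono ?_
      rintro _ ⟨x, rfl⟩
      have hx := x.2.2
      refine ⟨⟨s(⟨x.2, by omega⟩, ⟨(x.2 : ℕ) + e ((x.1 : ℕ) + 1), by omega⟩), ?_⟩, rfl⟩
      rw [SimpleGraph.mem_edgeSet]
      exact ⟨x.1, x.1.2, hpos x.1, Or.inl rfl⟩
    have h4 := Submodule.finrank_mono hspan
    rw [finrank_span_eq_card hli, Fintype.card_sigma, ← Matrix.rank_eq_finrank_span_row] at h4
    simpa using h4
  omega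

end Pool.Agent.Run7.h956.FW
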