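import Pool.Agent.Run7.h188.FW.Stm

/-! Piece STR of the interface `Pool/Agent/Run7/h188/FW/Stm.lean` (helper188): stresses over the
rationals vanish. -/

set_option autoImplicit false

namespace Pool.Agent.Run7.h956.FW

open Finset Polynomial Pool.Agent.Run7.h188.FW

/-- the polynomial with the coefficients `w k j`, `j < n` -/
noncomputable def V (w : ℕ → ℕ → ℚ) (n k : ℕ) : ℚ[X] := ∑ j ∈ range n, C (w k j) * X ^ j

theorem coeff_V (w : ℕ → ℕ → ℚ) (n k : ℕ) (h : ∀ j, n ≤ j → w k j = 0) (j : ℕ) :
    (V w n k).coeff j = w k j := by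
  unfold V
  rw [finsetSum_coeff]
  simp only [coeff_C_mul_X_pow]
  rw [Finset.sum_ite_eq (range n) j (fun j => w k j)]
  by_cases hj : j ∈ range n
  · rw [if_pos hj]
  · rw [if_neg hj, h j (by simpa using hj)]

theorem t_STR (hA : S_ALG) : S_STR := by
  intro q d n e w he hq h2 heq hn hw hst
  have hκ0 : nod ℚ q 0 = 1 := by simp [nod]
  have hκ : ∀ i, nod ℚ q i ≠ 0 := fun i => pow_ne_zero _ (Nat.cast_ne_zero.2 hq.ne_zero)
  generalize hκd : nod ℚ q = κ at *
  have hV : ∀ k j, (V w n k).coeff j = w k j :=
    fun k j => coeff_V w n k (fun j hj => hw k j (le_trans hj (Nat.le_add_right _ _))) j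
  let S0 : ℚ[X] := ∑ k ∈ range (d + 1), (1 + X ^ (e (k + 1))) * V w n k
  let W : Fin (d + 2) → ℚ[X] := Fin.cons (-(C (1 / 2) * S0)) (fun k : Fin (d + 1) => V w n k)
  have key : ∀ k, W k = 0 := by
    refine hA q d e W he hq h2 heq ?_ ?_
    · intro i
      rw [hκd, Fin.sum_univ_succ]
      have e1 : row κ i (e ((0 : Fin (d + 2)) : ℕ)) = 2 := by
        rw [Fin.val_zero, he.e0]
        simp only [row, pow_zero, map_one, mul_one]
        norm_num
      have e2 : ∑ k : Fin (d + 1), row κ i (e ((k.succ : Fin (d + 2)) : ℕ)) * W k.succ =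
          ∑ k ∈ range (d + 1), row κ i (e (k + 1)) * V w n k := by
        rw [← Fin.sum_univ_eq_sum_range (fun k => row κ i (e (k + 1)) * V w n k) (d + 1)]
        refine Finset.sum_congr rfl fun k _ => ?_
        simp only [W, Fin.cons_succ, Fin.val_succ]
      have e3 : (2 : ℚ[X]) * W 0 = - S0 := by
        simp only [W, Fin.cons_zero]
        have : (2 : ℚ[X]) * C (1 / 2) = 1 := by
          rw [show (2 : ℚ[X]) = C 2 from rfl, ← C_mul]
          norm_num
        linear_combination (-S0) * this
      rw [e1, e2, e3, neg_add_eq_sub, sub_eq_zero]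
      simp only [S0]
      ext j
      rw [finsetSum_coeff, finsetSum_coeff, ← sub_eq_zero, ← Finset.sum_sub_distrib]
      have e4 : ∀ k, (row κ i (e (k + 1)) * V w n k).coeff j -
          ((1 + X ^ (e (k + 1))) * V w n k).coeff j =
          (κ i ^ (e (k + 1)) - 1) * w k j +
          (if e (k + 1) ≤ j then ((κ i)⁻¹ ^ (e (k + 1)) - 1) * w k (j - e (k + 1)) else 0) := by
        intro k
        rw [← coeff_sub, ← sub_mul]
        have e5 : (row κ i (e (k + 1)) - (1 + X ^ (e (k + 1)))) * V w n k =
            C (κ i ^ (e (k + 1)) - 1) * V w n k +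
            C ((κ i)⁻¹ ^ (e (k + 1)) - 1) * (X ^ (e (k + 1)) * V w n k) := by
          simp only [row, C_sub, C_1]
          ring
        rw [e5, coeff_add, coeff_C_mul, coeff_C_mul, coeff_X_pow_mul', hV]
        split_ifs
        · rw [hV]
        · rw [mul_zero]
      simp_rw [e4]
      have hi := i.2
      rcases Nat.eq_zero_or_pos (i : ℕ) with h0 | h0
      · rw [h0, hκ0]
        simp
      · rcases lt_or_ge j n with hj | hj
        · have h5 := hst j hj i h0 (by omega)
          have h6 : (κ i ^ j) * (∑ k ∈ range (d + 1), ((κ i ^ (e (k + 1)) - 1) * w k j +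
              (if e (k + 1) ≤ j then ((κ i)⁻¹ ^ (e (k + 1)) - 1) * w k (j - e (k + 1)) else 0))) =
              -(∑ k ∈ range (d + 1), (w k j * (κ i ^ j - κ i ^ (j + e (k + 1))) +
                (if e (k + 1) ≤ j then w k (j - e (k + 1)) * (κ i ^ j - κ i ^ (j - e (k + 1)))
                else 0))) := by
            rw [Finset.mul_sum, ← Finset.sum_neg_distrib]
            refine Finset.sum_congr rfl fun k _ => ?_
            have h7 : κ i ^ (j + e (k + 1)) = κ i ^ j * κ i ^ (e (k + 1)) := pow_add _ _ _
            split_ifs with h8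
            · have h9 : κ i ^ (j - e (k + 1)) = κ i ^ j * (κ i)⁻¹ ^ (e (k + 1)) := by
                rw [pow_sub₀ _ (hκ i) h8, inv_pow]
              rw [h7, h9]
              ring
            · rw [h7]
              ring
          rw [h5, neg_zero] at h6
          exact (mul_eq_zero.1 h6).resolve_left (pow_ne_zero _ (hκ i))
        · refine Finset.sum_eq_zero fun k _ => ?_
          rw [hw k j (by omega)]
          split_ifs with h8
          · rw [hw k (j - e (k + 1)) (by omega)]
            ring
          · ring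
    · intro j hj
      have e1 : W (Fin.last (d + 1)) = V w n d := by
        rw [← Fin.succ_last]
        simp only [W, Fin.cons_succ, Fin.val_last]
      rw [e1, hV]
      refine hw d j ?_
      rw [Finset.sum_range_succ] at hn
      omega
  intro k hk j
  have h1 := key (Fin.succ ⟨k, by omega⟩)
  simp only [W, Fin.cons_succ] at h1
  rw [← hV k j, h1, coeff_zero]

end Pool.Agent.Run7.h956.FW
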